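import Pool.Agent.H563.SQ.Main

/-!
# MP_aaa0df_nt: one thin set of primes for almost all imaginary quadratic fields

The question asks for many split primes below `(log |d|) ^ 2 (log log |d|) ^ 2`. For almost all discriminants
half of ALL primes up to `(log |d|) ^ A`, `A > 1`, split (starting result AlmostAllFields, with
`O(X ^ (1 / A + ε))` exceptions up to `X`). Here the primes are taken from ONE fixed set `Q`, the same for all
fields, with only about `y ^ (1 / A)` elements up to `y`, so that it has about `log |d|` elements up to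
`(log |d|) ^ A`; the number of the exceptions is the same, `O(X ^ (1 / A + ε))`. For `A = 2` the threshold of the
question is covered.

The proof. The primes with the indices `2 ^ i, …, 2 ^ (i + 1) - 1` are divided into blocks of equal length, and
one prime is chosen from each block, for all discriminants `d` with `log |d|` up to a small multiple of the
number of the blocks and all partial sums at once, by the method of conditional expectations.
-/

set_option autoImplicit false

namespace Pool.Agent.Results.MP_aaa0df_nt.ThinSetOfPrimes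

/-- the fundamental discriminants `d < 0`, that is, the discriminants of the imaginary quadratic
fields (as in the frozen statement) -/
def NegFund (d : ℤ) : Prop := d < 0 ∧ ((d % 4 = 1 ∧ Squarefree d) ∨
  ∃ m : ℤ, d = 4 * m ∧ (m % 4 = 2 ∨ m % 4 = 3) ∧ Squarefree m)

/-- the primes `p ≤ y` in the set `Q` -/
def primesIn (Q : Set ℕ) (y : ℕ) : Set ℕ := {p | p.Prime ∧ p ≤ y ∧ p ∈ Q}

/-- the primes `p ≤ y` in the set `Q` which split in the quadratic field of discriminant `d`: `p`
does not divide `d` and `d` is a square modulo `4 p` (as in the frozen statement) -/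
def splitIn (Q : Set ℕ) (d : ℤ) (y : ℕ) : Set ℕ :=
  {p | p.Prime ∧ p ≤ y ∧ p ∈ Q ∧ ¬ (p : ℤ) ∣ d ∧ ∃ x : ℤ, (4 * (p : ℤ)) ∣ x ^ 2 - d}

/-- For all `y` between `(log |d|) ^ A` and `|d| ^ c` half of the primes `p ≤ y` in `Q` split in
the field of discriminant `d`, up to the relative error `η`. -/
def Half (Q : Set ℕ) (A c η : ℝ) (d : ℤ) : Prop := ∀ y : ℕ, Real.log |(d : ℝ)| ^ A ≤ y →
  (y : ℝ) ≤ |(d : ℝ)| ^ c →
    |2 * ((splitIn Q d y).ncard : ℝ) - (primesIn Q y).ncard| ≤ η * (primesIn Q y).ncard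

theorem result : ∀ A η ε : ℝ, 1 < A → 0 < η → 0 < ε →
    ∃ Q : Set ℕ, ∃ C c K : ℝ, ∃ y₀ : ℕ, (∀ p ∈ Q, p.Prime) ∧ 0 < c ∧
      (∀ y : ℕ, y₀ ≤ y → (y : ℝ) ^ (1 / A) ≤ (primesIn Q y).ncard ∧
        ((primesIn Q y).ncard : ℝ) ≤ C * (y : ℝ) ^ (1 / A)) ∧
      ∀ X : ℕ, 1 ≤ X → ({d : ℤ | NegFund d ∧ |d| ≤ X ∧ ¬ Half Q A c η d}.ncard : ℝ) ≤
        K * (X : ℝ) ^ (1 / A + ε) := by
  intro A η ε hA hη hε
  obtain ⟨Q, C, c, K, h1, h2, h3, ⟨y₀, h4⟩, h5⟩ := Pool.Agent.H563.SQ.main A η ε hA hη hε
  exact ⟨Q, C, c, K, y₀ + 1, h1, h2, fun y hy => ⟨h4 y (by omega), h3 y (by omega)⟩, h5⟩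

end Pool.Agent.Results.MP_aaa0df_nt.ThinSetOfPrimes
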