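import Pool.Agent.H473.SM.Jac

set_option autoImplicit false

/-!
# Split primes of every quadratic field, in terms of the two largest prime factors of the discriminant

Let `P₁ ≥ P₂` be the two largest prime factors of the fundamental discriminant `d`. For every `ε > 0` and
every `A` and for EVERY `d` with `|d| ≥ D₀(ε, A)`, at least `(log |d|) ^ A` primes
`p < |d| ^ ε * min (|d| ^ (1 / 4)) (max P₂ (√ P₁))` split in the quadratic field of discriminant `d`.

The starting library has the threshold `|d| ^ ε * min (|d| ^ (1 / 4)) P₁`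
(`MP_aaa0df_nt.LargestPrimeFactor`, helper20). New is the bound for short sums of characters with one
large prime factor `P` in the conductor (`H473/SM`): after the `q`-analogue of van der Corput's method has
removed all the other primes, the short sums over the product of the shifted characters modulo `P` are
estimated for all lengths down to `√P` times a small power, by the second moment over all translations
and by the slow variation of these sums. The step from short sums to split primes is that of the library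
(`NH20.SD`: Siegel's theorem, products of split primes, Rankin's method; Burgess' bound for
`|d| ^ (1 / 4)`).
-/

namespace Pool.Agent.H473.SM

open Finset Filter Real Pool.Agent.H568.GR Pool.Agent.NH20.SD

/-- the case without large prime factors but one, for one exponent -/
theorem case_two (s g A : ℝ) (hg : 0 < g) (hg1 : g ≤ 1 / 16) (hs : g ≤ s) (hs1 : s ≤ 1 / 4 + g)
    (hA : 1 ≤ A) :
    ∀ᶠ P : ℝ in atTop, ∀ d : ℤ, |(d : ℝ)| = P → Fund d →
      OneLarge d.natAbs (P ^ s) (P ^ (2 * s)) →
      log P ^ A ≤ ((SplitSet d (P ^ (s + 2 * g))).ncard : ℝ) := by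
  have hA0 : 0 < A := by linarith
  set e : ℝ := min (g / 4) (g / A) with he
  have he0 : 0 < e := lt_min (by positivity) (by positivity)
  have he1 : e ≤ g / 4 := min_le_left _ _
  have he2 : e ≤ g / A := min_le_right _ _
  set θ : ℝ := s + g + e / 2 with hθ
  have hθ2 : θ ≤ 1 / 2 := by linarith
  have hθ8 : e ≤ θ / 8 := by linarith
  have hθA : e ≤ θ / (2 * A) := by
    refine he2.trans ?_
    rw [div_le_div_iff₀ (by positivity) (by positivity)]
    nlinarith
  obtain ⟨δ, P1, hδ, hb⟩ := cs2 (s + g) g hg (by linarith)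
  obtain ⟨P2, hm⟩ := mnb_all θ e δ he0 hθ8 hθ2 hδ
  filter_upwards [eventually_ge_atTop P1, eventually_ge_atTop P2, many θ e A he0 hθ8 hA hθA,
    eventually_gt_atTop 1] with P h1 h2 h3 h4 d hdP hd hsm
  subst hdP
  obtain ⟨a, q, ha, hqo, hqs, hdq⟩ := fund_shape d hd
  have h5 := hm d a q h2 ha hqo hqs hdq (fun x => by
    have h6 := hb d a q h1 ha hqo hqs hdq (by
      obtain ⟨p₀, hp₀, hps⟩ := hsm
      refine ⟨p₀, hp₀.trans (rpow_le_rpow_of_exponent_le h4.le (by linarith)), ?_⟩
      intro p hp hpq hpp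
      have h8 : s + g - g = s := by ring
      rw [h8]
      apply hps p hp _ hpp
      rw [hdq]
      exact Dvd.dvd.mul_left hpq _) x
    have h7 : θ - e / 2 = s + g := by rw [hθ]; ring
    rw [h7]
    exact h6)
  refine (h3 d h5).trans (spl_le d hd _ _ ?_)
  refine lt_of_le_of_lt (Nat.floor_le (by positivity)) ?_
  exact rpow_lt_rpow_of_exponent_lt h4 (by linarith)

/-- the second largest prime factor -/
def spf (d : ℤ) : ℕ := (d.natAbs.primeFactors.erase (lpf d)).sup id

theorem le_spf (d : ℤ) (hd : d ≠ 0) (p : ℕ) (hp : p.Prime) (h : p ∣ d.natAbs) (hne : p ≠ lpf d) :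
    p ≤ spf d := by
  have : p ∈ d.natAbs.primeFactors.erase (lpf d) := by
    rw [mem_erase, Nat.mem_primeFactors]
    exact ⟨hne, hp, h, Int.natAbs_ne_zero.2 hd⟩
  exact Finset.le_sup (f := id) this

theorem main2 (ε A : ℝ) (hε : 0 < ε) : ∃ D₀ : ℝ, ∀ d : ℤ, Fund d → D₀ ≤ |(d : ℝ)| →
    log |(d : ℝ)| ^ A ≤ ((SplitSet d (|(d : ℝ)| ^ ε *
      min (|(d : ℝ)| ^ (1 / 4 : ℝ)) (max (spf d : ℝ) (√(lpf d : ℝ))))).ncard : ℝ) := by
  -- reductions
  wlog hA : 1 ≤ A generalizing A
  · obtain ⟨D₀, h⟩ := this 1 le_rfl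
    refine ⟨max D₀ (exp 1), fun d hd hD => ?_⟩
    have h1 := h d hd ((le_max_left _ _).trans hD)
    refine le_trans ?_ h1
    apply rpow_le_rpow_of_exponent_le _ (by linarith)
    rw [le_log_iff_exp_le (lt_of_lt_of_le (exp_pos 1) ((le_max_right _ _).trans hD))]
    exact (le_max_right _ _).trans hD
  wlog hε1 : ε ≤ 1 / 4 generalizing ε
  · obtain ⟨D₀, h⟩ := this (1 / 4) (by norm_num) le_rfl
    refine ⟨max D₀ 1, fun d hd hD => ?_⟩
    have h1 := h d hd ((le_max_left _ _).trans hD)
    refine h1.trans (mono_set d ?_)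
    apply mul_le_mul_of_nonneg_right _ (le_min (by positivity) ((Nat.cast_nonneg _).trans (le_max_left _ _)))
    exact rpow_le_rpow_of_exponent_le ((le_max_right _ _).trans hD) (by linarith)
  -- the grid
  set g : ℝ := ε / 4 with hg
  have hg0 : 0 < g := by positivity
  obtain ⟨J, hJ⟩ := exists_nat_ge (1 / (4 * g))
  have hsm : ∀ᶠ P : ℝ in atTop, ∀ j ∈ Finset.range (J + 1), ((j : ℝ) * g ≤ 1 / 4) →
      ∀ d : ℤ, |(d : ℝ)| = P → Fund d →
      OneLarge d.natAbs (P ^ ((j + 1 : ℝ) * g)) (P ^ (2 * ((j + 1 : ℝ) * g))) →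
      log P ^ A ≤ ((SplitSet d (P ^ ((j + 1 : ℝ) * g + 2 * g))).ncard : ℝ) := by
    rw [Filter.eventually_all_finset]
    intro j _
    by_cases hj : (j : ℝ) * g ≤ 1 / 4
    · have h := case_two ((j + 1 : ℝ) * g) g A hg0 (by linarith) (by
        have : (0 : ℝ) ≤ j * g := by positivity
        nlinarith) (by nlinarith) hA
      filter_upwards [h] with P hP _
      exact hP
    · filter_upwards with P h
      exact absurd h hj
  obtain ⟨D₀, hD₀⟩ := eventually_atTop.1 ((case_burg ε A hε hε1 hA).and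
    (hsm.and (eventually_ge_atTop (4 : ℝ))))
  refine ⟨D₀, fun d hd hD => ?_⟩
  obtain ⟨h1, h2, h3⟩ := hD₀ _ hD
  set P : ℝ := |(d : ℝ)| with hP
  have hP0 : 0 < P := by linarith
  have hP1 : 1 < P := by linarith
  have hd2 : 2 ≤ d.natAbs := by
    have : (4 : ℝ) ≤ (d.natAbs : ℝ) := by rw [Nat.cast_natAbs, Int.cast_abs]; exact h3
    have : 4 ≤ d.natAbs := by exact_mod_cast this
    omega
  have hd0 : d ≠ 0 := by
    rintro rfl
    simp at hd2
  have hL2 := lpf_ge_two d hd2
  have hL2r : (2 : ℝ) ≤ (lpf d : ℝ) := by exact_mod_cast hL2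
  set T : ℝ := max (spf d : ℝ) (√(lpf d : ℝ)) with hT
  have hT1 : 1 ≤ T := (one_le_sqrt.2 (by linarith)).trans (le_max_right _ _)
  have hT0 : 0 < T := by linarith
  rcases le_total (P ^ (1 / 4 : ℝ)) T with hc | hc
  · rw [min_eq_left hc, ← rpow_add hP0, add_comm]
    exact h1 d rfl hd
  · rw [min_eq_right hc]
    set t : ℝ := log T / log P with ht
    have hlP : 0 < log P := log_pos hP1
    have hlt : T = P ^ t := by
      rw [ht, rpow_def_of_pos hP0, mul_div_cancel₀ _ hlP.ne', exp_log hT0]
    have ht0 : 0 ≤ t := by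
      apply div_nonneg (log_nonneg hT1) hlP.le
    have ht4 : t ≤ 1 / 4 := by
      rw [hlt] at hc
      exact (rpow_le_rpow_left_iff hP1).1 hc
    set j := ⌊t / g⌋₊ with hj
    have hj1 : (j : ℝ) * g ≤ t := by
      have := Nat.floor_le (div_nonneg ht0 hg0.le)
      rw [← hj, le_div_iff₀ hg0] at this
      exact this
    have hj2 : t ≤ (j + 1 : ℝ) * g := by
      have := (Nat.lt_floor_add_one (t / g)).le
      rw [← hj, div_le_iff₀ hg0] at this
      exact this
    have hjJ : j ∈ Finset.range (J + 1) := by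
      rw [mem_range]
      have : (j : ℝ) ≤ J := by
        refine le_trans ?_ hJ
        rw [le_div_iff₀ (by positivity)]
        nlinarith
      have : j ≤ J := by exact_mod_cast this
      omega
    have h4 := h2 j hjJ (by linarith) d rfl hd ⟨lpf d, by
      have h5 : √(lpf d : ℝ) ≤ P ^ t := by
        rw [← hlt]
        exact le_max_right _ _
      have h6 : (lpf d : ℝ) = √(lpf d : ℝ) ^ 2 := (sq_sqrt (by linarith)).symm
      have h7 : (P ^ t) ^ 2 = P ^ (2 * t) := by
        rw [← rpow_natCast, ← rpow_mul hP0.le]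
        congr 1
        push_cast
        ring
      calc (lpf d : ℝ) = √(lpf d : ℝ) ^ 2 := h6
        _ ≤ (P ^ t) ^ 2 := pow_le_pow_left₀ (sqrt_nonneg _) h5 2
        _ = P ^ (2 * t) := h7
        _ ≤ _ := rpow_le_rpow_of_exponent_le hP1.le (by linarith), fun p hp hpd hpp => by
      have h5 : (p : ℝ) ≤ spf d := by exact_mod_cast le_spf d hd0 p hp hpd hpp
      have h6 : (spf d : ℝ) ≤ T := le_max_left _ _
      refine (h5.trans h6).trans ?_
      rw [hlt]
      exact rpow_le_rpow_of_exponent_le hP1.le hj2⟩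
    refine h4.trans (mono_set d ?_)
    rw [hlt, ← rpow_add hP0]
    apply rpow_le_rpow_of_exponent_le hP1.le
    have : (j + 1 : ℝ) * g = j * g + g := by ring
    rw [this]
    linarith

end Pool.Agent.H473.SM

namespace Pool.Agent.Results.MP_aaa0df_nt.TwoLargestPrimes

/-- `d` is the discriminant of a quadratic field (imaginary if `d < 0`, real if `d > 0`) -/
def FundDisc (d : ℤ) : Prop := d ≠ 1 ∧ ((d % 4 = 1 ∧ Squarefree d) ∨
  ∃ m : ℤ, d = 4 * m ∧ (m % 4 = 2 ∨ m % 4 = 3) ∧ Squarefree m)

/-- the largest prime factor of `d` -/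
def largestPrime (d : ℤ) : ℕ := d.natAbs.primeFactors.sup id

/-- the second largest prime factor of `d` (`0` if there is only one) -/
def secondPrime (d : ℤ) : ℕ := (d.natAbs.primeFactors.erase (largestPrime d)).sup id

/-- the primes `p < t` which split in the quadratic field of discriminant `d` (`p` does not divide
`d` and `d` is a square modulo `4 p`, as in the frozen statement) -/
def splitPrimes (d : ℤ) (t : ℝ) : Set ℕ := {p : ℕ | p.Prime ∧ (p : ℝ) < t ∧ ¬ (p : ℤ) ∣ d ∧
  ∃ x : ℤ, (4 * (p : ℤ)) ∣ x ^ 2 - d}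

/-- **Theorem.** For every `ε > 0` and every `A` there is `D` such that for EVERY fundamental
discriminant `d` with `|d| ≥ D`, at least `(log |d|) ^ A` primes
`p < |d| ^ ε * min (|d| ^ (1 / 4)) (max P₂ (√ P₁))` split in the quadratic field of discriminant `d`,
where `P₁ > P₂` are the two largest prime factors of `d`. -/
theorem result (ε A : ℝ) (hε : 0 < ε) : ∃ D : ℝ, ∀ d : ℤ, FundDisc d → D ≤ |(d : ℝ)| →
    Real.log |(d : ℝ)| ^ A ≤ ((splitPrimes d (|(d : ℝ)| ^ ε *
      min (|(d : ℝ)| ^ (1 / 4 : ℝ)) (max (secondPrime d : ℝ) (√(largestPrime d : ℝ))))).ncard : ℝ) := by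
  obtain ⟨D, h⟩ := Pool.Agent.H473.SM.main2 ε A hε
  exact ⟨D, fun d hd hD => h d hd.2 hD⟩

end Pool.Agent.Results.MP_aaa0df_nt.TwoLargestPrimes
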